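import Pool.Agent.H8.PFT.Hier2

/-!
Second homology in a lower central genus and hierarchies.

Let `H` be finitely generated and residually torsion-free nilpotent, with the lower central
sequence of a group `G` with `H₂(G, ℤ) = 0`. If `H` is obtained in finitely many steps from groups
without second homology, locally free groups and nilpotent groups, by actions on trees with
nilpotent edge stabilisers (finitely many orbits of edges), then `H₂(H, ℤ) = 0`. In the last step
the abelianizations of the edge stabilisers may also be generated by two elements.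
-/

namespace Pool.Agent.Results.MP_b7ea10_al.Hierarchies

open CategoryTheory

/-- Mathlib's second homology group `H₂(Γ, ℤ)` with trivial action on `ℤ`. -/
noncomputable abbrev H2 (Γ : Type) [Group Γ] : ModuleCat ℤ :=
  groupHomology (Rep.trivial ℤ Γ ℤ) 2

/-- `H` is residually torsion-free nilpotent. -/
def RTFN (H : Type) [Group H] : Prop :=
  ∀ g : H, g ≠ 1 → ∃ (N : Subgroup H) (_ : N.Normal), g ∉ N ∧ Group.IsNilpotent (H ⧸ N) ∧
    ∀ x : H ⧸ N, ∀ k : ℕ, 0 < k → x ^ k = 1 → x = 1

/-- `K` acts on the tree `T` without inversions and with finitely many orbits of edges. -/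
structure Acts (K : Type) [Group K] (V : Type) [MulAction K V] (T : SimpleGraph V) : Prop where
  tree : T.IsTree
  adj : ∀ (g : K) (u v : V), T.Adj u v → T.Adj (g • u) (g • v)
  inv : ∀ (g : K) (u v : V), T.Adj u v → ¬ (g • u = v ∧ g • v = u)
  fin : ∃ E : Finset (V × V), ∀ u v : V, T.Adj u v → ∃ g : K, (g • u, g • v) ∈ E

/-- `C` is nilpotent and its centre is finitely generated (for example `C` finitely generated and
nilpotent). -/
def NilC (C : Type) [Group C] : Prop := Group.IsNilpotent C ∧ (Subgroup.center C).FG

/-- The images of two elements generate the abelianization of `C`. -/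
def Two {K : Type} [Group K] (C : Subgroup K) : Prop :=
  ∃ a ∈ C, ∃ b ∈ C, C ≤ Subgroup.closure {a, b} ⊔ ⁅C, C⁆

/-- `C` has no second homology, or all its finitely generated subgroups are free (in which case
it has no second homology either). -/
def NoH2 (C : Type) [Group C] : Prop :=
  Subsingleton (H2 C) ∨ ∀ L : Subgroup C, L.FG → IsFreeGroup L

/-- The subgroups of `H` with a finite hierarchy. -/
inductive Tame {H : Type} [Group H] : Subgroup H → Prop
  | nilpotent (K : Subgroup H) (h : NilC K) : Tame K
  | noH2 (K : Subgroup H) (h : NoH2 K) : Tame K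
  | last (K : Subgroup H) (V : Type) [MulAction K V] (T : SimpleGraph V) (h : Acts K V T)
      (hedge : ∀ u v : V, T.Adj u v →
        NilC (MulAction.stabilizer K u ⊓ MulAction.stabilizer K v : Subgroup K) ∨
          Two (MulAction.stabilizer K u ⊓ MulAction.stabilizer K v))
      (hv : ∀ v : V, NoH2 (MulAction.stabilizer K v)) : Tame K
  | step (K : Subgroup H) (V : Type) [MulAction K V] (T : SimpleGraph V) (h : Acts K V T)
      (hedge : ∀ u v : V, T.Adj u v →
        NilC (MulAction.stabilizer K u ⊓ MulAction.stabilizer K v : Subgroup K))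
      (hv : ∀ v : V, Tame ((MulAction.stabilizer K v).map K.subtype)) : Tame K

theorem noH2_zero {C : Type} [Group C] (h : NoH2 C) : Subsingleton (H2 C) := by
  rcases h with h | h
  · exact h
  · exact Pool.Agent.H3.HG.locFree_subsingleton _ h

theorem result (G H : Type) [Group G] [Group H] [Group.FG H]
    (hgenus : ∀ n, Nonempty (G ⧸ (⊤ : Subgroup G).lowerCentralSeries n ≃*
      H ⧸ (⊤ : Subgroup H).lowerCentralSeries n))
    (hG : Subsingleton (H2 G)) (hR : RTFN H) (hH : Tame (⊤ : Subgroup H)) :
    Subsingleton (H2 H) := by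
  apply Pool.Agent.H8.PFT.hier_top G H hgenus hG
  have hR' := Pool.Agent.H8.PFT.adm_RTFN hR
  suffices key : ∀ K : Subgroup H, Tame K →
      ∃ N : Subgroup H, Pool.Agent.H8.PFT.NQ N ∧ Pool.Agent.H8.PFT.Dies N K from key _ hH
  intro K hK
  induction hK with
  | nilpotent K h => exact Pool.Agent.H8.PFT.dies_nil hR' K h
  | noH2 K h =>
    exact ⟨⊤, Pool.Agent.H8.PFT.NQ.top, Pool.Agent.H8.PFT.dies_zero _ _ (noH2_zero h)⟩
  | last K V T h hedge hv =>
    obtain ⟨E, hE⟩ := h.fin
    classical
    refine Pool.Agent.H8.PFT.hier_small hR' h.tree h.adj h.inv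
      (E.filter fun e => T.Adj e.1 e.2) ?_ (fun e he => (Finset.mem_filter.1 he).2) hedge
      (fun v => noH2_zero (hv v))
    intro u v huv
    obtain ⟨g, hg⟩ := hE u v huv
    exact ⟨g, Finset.mem_filter.2 ⟨hg, h.adj g u v huv⟩⟩
  | step K V T h hedge hv ih =>
    obtain ⟨E, hE⟩ := h.fin
    classical
    refine Pool.Agent.H8.PFT.hier_abelian hR' h.tree h.adj h.inv
      (E.filter fun e => T.Adj e.1 e.2) ?_ (fun e he => (Finset.mem_filter.1 he).2) hedge ih
    intro u v huv
    obtain ⟨g, hg⟩ := hE u v huv
    exact ⟨g, Finset.mem_filter.2 ⟨hg, h.adj g u v huv⟩⟩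

end Pool.Agent.Results.MP_b7ea10_al.Hierarchies
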