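import Pool.Agent.H3.HG.All

/-!
Second homology in a lower central genus.

If `H` is finitely generated and has the lower central sequence of a group `G` with
`H₂(G, ℤ) = 0`, then for every normal subgroup `N` of `H` with nilpotent quotient the map
`H₂(N, ℤ) → H₂(H, ℤ)` is surjective. So `H₂(H, ℤ) = 0` if `H₂(N, ℤ) = 0` for one such `N`,
in particular if `H` is (locally free)-by-nilpotent.
-/

namespace Pool.Agent.Results.MP_b7ea10_al.NilpotentQuotients

open CategoryTheory

/-- Mathlib's second homology group `H₂(Γ, ℤ)` with trivial action on `ℤ`. -/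
noncomputable abbrev H2 (Γ : Type) [Group Γ] : ModuleCat ℤ :=
  groupHomology (Rep.trivial ℤ Γ ℤ) 2

/-- The map induced on `H₂(-, ℤ)` by a group homomorphism (Mathlib's `groupHomology.map`). -/
noncomputable def H2map {Γ₁ Γ₂ : Type} [Group Γ₁] [Group Γ₂] (φ : Γ₁ →* Γ₂) : H2 Γ₁ →+ H2 Γ₂ :=
  (groupHomology.map (A := Rep.trivial ℤ Γ₁ ℤ) (B := Rep.trivial ℤ Γ₂ ℤ) φ
    (𝟙 (Rep.trivial ℤ Γ₁ ℤ)) 2).hom.toAddMonoidHom

theorem result (G H : Type) [Group G] [Group H] [Group.FG H]
    (hgenus : ∀ n, Nonempty (G ⧸ (⊤ : Subgroup G).lowerCentralSeries n ≃*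
      H ⧸ (⊤ : Subgroup H).lowerCentralSeries n))
    (hG : Subsingleton (H2 G)) (N : Subgroup H) [N.Normal] (hN : Group.IsNilpotent (H ⧸ N)) :
    Function.Surjective (H2map N.subtype) ∧
      ((Subsingleton (H2 N) ∨ ∀ K : Subgroup N, K.FG → IsFreeGroup K) → Subsingleton (H2 H)) := by
  have hs : Function.Surjective (H2map N.subtype) :=
    Pool.Agent.H3.HG.genus G H hgenus hG N hN
  refine ⟨hs, fun h => ?_⟩
  have hsub : Subsingleton (H2 N) := by
    rcases h with h | h
    · exact h
    · exact Pool.Agent.H3.HG.locFree_subsingleton N h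
  exact hs.subsingleton

end Pool.Agent.Results.MP_b7ea10_al.NilpotentQuotients
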