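import Pool.Agent.H8.PFT.All

/-!
Second homology in a lower central genus and actions on trees.

Let `H` be finitely generated, with the lower central sequence of a group `G` with
`H₂(G, ℤ) = 0`, and let `H` act without inversions on a tree. If the commutator subgroup of every
edge stabiliser is closed in the pro-nilpotent topology of `H`, then `H₂(H, ℤ)` is generated by the
images of the second homology of the vertex stabilisers. If `H` is residually torsion-free
nilpotent, this applies to all edge stabilisers which are abelian or whose abelianization is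
generated by two elements.
-/

namespace Pool.Agent.Results.MP_b7ea10_al.TreeActions

open CategoryTheory

/-- Mathlib's second homology group `H₂(Γ, ℤ)` with trivial action on `ℤ`. -/
noncomputable abbrev H2 (Γ : Type) [Group Γ] : ModuleCat ℤ :=
  groupHomology (Rep.trivial ℤ Γ ℤ) 2

/-- The map induced on `H₂(-, ℤ)` by a group homomorphism (Mathlib's `groupHomology.map`). -/
noncomputable def H2map {Γ₁ Γ₂ : Type} [Group Γ₁] [Group Γ₂] (φ : Γ₁ →* Γ₂) : H2 Γ₁ →+ H2 Γ₂ :=
  (groupHomology.map (A := Rep.trivial ℤ Γ₁ ℤ) (B := Rep.trivial ℤ Γ₂ ℤ) φ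
    (𝟙 (Rep.trivial ℤ Γ₁ ℤ)) 2).hom.toAddMonoidHom

/-- `H` is residually torsion-free nilpotent. -/
def RTFN (H : Type) [Group H] : Prop :=
  ∀ g : H, g ≠ 1 → ∃ (N : Subgroup H) (_ : N.Normal), g ∉ N ∧ Group.IsNilpotent (H ⧸ N) ∧
    ∀ x : H ⧸ N, ∀ k : ℕ, 0 < k → x ^ k = 1 → x = 1

/-- The commutator subgroup `[C, C]` is closed in `C` in the pro-nilpotent topology of `H`: for
`x ∈ C` outside `[C, C]` some normal subgroup `N` of `H` with nilpotent quotient has
`x ∉ [C, C] N`. -/
def Visible {H : Type} [Group H] (C : Subgroup H) : Prop :=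
  ∀ x ∈ C, x ∉ ⁅C, C⁆ → ∃ (N : Subgroup H) (_ : N.Normal), Group.IsNilpotent (H ⧸ N) ∧
    ∀ y ∈ ⁅C, C⁆, y * x ∉ N

/-- `C` is abelian, or the images of two elements generate the abelianization of `C`. -/
def Small {H : Type} [Group H] (C : Subgroup H) : Prop :=
  (∀ x ∈ C, ∀ y ∈ C, x * y = y * x) ∨
    ∃ a ∈ C, ∃ b ∈ C, C ≤ Subgroup.closure {a, b} ⊔ ⁅C, C⁆

theorem result (G H : Type) [Group G] [Group H] [Group.FG H]
    (hgenus : ∀ n, Nonempty (G ⧸ (⊤ : Subgroup G).lowerCentralSeries n ≃*
      H ⧸ (⊤ : Subgroup H).lowerCentralSeries n))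
    (hG : Subsingleton (H2 G)) (V : Type) [MulAction H V] (T : SimpleGraph V) (hT : T.IsTree)
    (hadj : ∀ (g : H) (u v : V), T.Adj u v → T.Adj (g • u) (g • v))
    (hinv : ∀ (g : H) (u v : V), T.Adj u v → ¬ (g • u = v ∧ g • v = u))
    (hedge : ∀ u v : V, T.Adj u v →
      Visible (MulAction.stabilizer H u ⊓ MulAction.stabilizer H v) ∨
        RTFN H ∧ Small (MulAction.stabilizer H u ⊓ MulAction.stabilizer H v)) :
    (∀ z : H2 H, z ∈ ⨆ v : V, (H2map (MulAction.stabilizer H v).subtype).range) ∧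
      ((∀ v : V, Subsingleton (H2 (MulAction.stabilizer H v)) ∨
        ∀ K : Subgroup (MulAction.stabilizer H v), K.FG → IsFreeGroup K) →
          Subsingleton (H2 H)) := by
  have h1 : ∀ z : H2 H, z ∈ ⨆ v : V, (H2map (MulAction.stabilizer H v).subtype).range := by
    apply Pool.Agent.H8.PFT.closed_gen G H hgenus hG hT hadj hinv
    intro u v huv x hx hxc
    rcases hedge u v huv with h | ⟨hR, h⟩
    · exact h x hx hxc
    · exact Pool.Agent.H8.PFT.small_closed hR _ h x hx hxc
  exact ⟨h1, fun h0 => Pool.Agent.H8.PFT.zero_of_gen _ h1 h0⟩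

end Pool.Agent.Results.MP_b7ea10_al.TreeActions
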